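import Mathlib
import Pool.Agent.U218.LD.Poly
import Pool.Agent.Helper259.HtExt

set_option autoImplicit false
set_option linter.all false

open Polynomial Module IntermediateField NumberField Height

namespace Pool.Agent.U218.PP

open Pool.Agent.H388SL Pool.Agent.U218.LD

lemma exp_lam_le {L : Type*} [Field L] [NumberField L] (γ : L) :
    lam γ ≤ Real.log (mulHeight₁ γ) := by
  classical
  have h1 : (1 : ℝ) ≤ ∏ᶠ v : FinitePlace L, max (v γ) 1 := one_le_finprod fun _ => le_max_right _ _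
  have h2 : (∏ v : InfinitePlace L, max (v γ) 1 ^ v.mult) =
      ∏ φ : L →+* ℂ, max ‖φ γ‖ 1 := by
    rw [Pool.Agent.Helper259.HtExt.prod_infinitePlace_pow_mult L (fun v => max (v γ) 1)]
    rfl
  have h3 : lam γ = Real.log (∏ φ : L →+* ℂ, max ‖φ γ‖ 1) := by
    rw [Real.log_prod (fun φ _ => by positivity), lam]
    refine Fintype.sum_equiv (RingHom.equivRatAlgHom (R := L) (S := ℂ)).symm _ _ fun σ => ?_
    rw [max_comm]
    rfl
  rw [h3, NumberField.mulHeight₁_eq, h2]
  apply Real.log_le_log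
  · exact Finset.prod_pos fun φ _ => by positivity
  · exact le_mul_of_one_le_right (Finset.prod_nonneg fun φ _ => by positivity) h1

lemma height_ge' {K : Type*} [Field K] [CharZero K] {x : K} (hx : IsIntegral ℤ x) :
    Real.log ((minpoly ℤ x).map (Int.castRingHom ℂ)).mahlerMeasure ≤
      (minpoly ℤ x).natDegree * NumberField.absLogHeight₁ x := by
  have hxQ : IsIntegral ℚ x := hx.tower_top
  unfold NumberField.absLogHeight₁ NumberField.absMulHeight₁
  rw [dif_pos hxQ]
  haveI : FiniteDimensional ℚ ℚ⟮x⟯ := adjoin.finiteDimensional hxQ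
  haveI : NumberField ℚ⟮x⟯ := {}
  have h0 : aeval (AdjoinSimple.gen ℚ x) (minpoly ℤ x) = 0 := by
    apply (algebraMap ℚ⟮x⟯ K).injective
    rw [map_zero]
    have h1 := Polynomial.aeval_algebraMap_apply K (AdjoinSimple.gen ℚ x) (minpoly ℤ x)
    rw [← h1, AdjoinSimple.algebraMap_gen, minpoly.aeval]
  obtain ⟨h1, h2⟩ := rsum_eq (minpoly.irreducible hx) (minpoly.monic hx) h0
  have h3 := lam_mul (AdjoinSimple.gen ℚ x)
  have h4 : finrank ℚ ℚ⟮x⟯ = (minpoly ℤ x).natDegree := by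
    rw [adjoin.finrank hxQ, minpoly.isIntegrallyClosed_eq_field_fractions' ℚ hx,
      natDegree_map_eq_of_injective]
    exact RingHom.injective_int _
  have hn : (0 : ℝ) < (minpoly ℤ x).natDegree := by
    exact_mod_cast minpoly.natDegree_pos hx
  rw [h2, h4] at h3
  have h5 := mul_left_cancel₀ hn.ne' h3
  have h6 := exp_lam_le (AdjoinSimple.gen ℚ x)
  have h7 : Real.log (mulHeight₁ (AdjoinSimple.gen ℚ x) ^ ((finrank ℚ ℚ⟮x⟯ : ℝ)⁻¹)) =
      (finrank ℚ ℚ⟮x⟯ : ℝ)⁻¹ * Real.log (mulHeight₁ (AdjoinSimple.gen ℚ x)) :=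
    Real.log_rpow (mulHeight₁_pos _) _
  rw [h7, h4, ← mul_assoc, mul_inv_cancel₀ hn.ne', one_mul, ← h1, ← h5]
  exact h6

end Pool.Agent.U218.PP
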