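import Mathlib
import Pool.Agent.U218.RA.Br
import Pool.Agent.H58R.Loc

/-! # Radicals of bounded order: the field -/

set_option autoImplicit false
set_option linter.all false

open Polynomial Module IntermediateField NumberField

namespace Pool.Agent.U218.PP

section general

variable {k Ω : Type*} [Field k] [CharZero k] [Field Ω] [Algebra k Ω] [IsAlgClosed Ω]
  [Algebra.IsAlgebraic k Ω] [Normal k Ω]

/-- automorphisms of the algebraic closure restricted to a finite Galois subfield -/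
lemma pow_fix {K : IntermediateField k Ω} [FiniteDimensional k K] [Normal k K]
    (σ : Ω ≃ₐ[k] Ω) {x : Ω} (hx : x ∈ K) : (σ ^ Nat.card (K ≃ₐ[k] K)) x = x := by
  have h1 : (AlgEquiv.restrictNormalHom K σ) ^ Nat.card (K ≃ₐ[k] K) = 1 := pow_card_eq_one'
  rw [← map_pow] at h1
  have h2 := AlgEquiv.restrictNormal_commutes (σ ^ Nat.card (K ≃ₐ[k] K)) K ⟨x, hx⟩
  have h3 : (σ ^ Nat.card (K ≃ₐ[k] K)).restrictNormal K = 1 := h1
  rw [h3] at h2
  simpa using h2.symm

theorem exists_field (K : IntermediateField k Ω) [FiniteDimensional k K] {m : ℕ} (hm : 0 < m) :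
    ∃ (N : ℕ) (F : IntermediateField k Ω), 0 < N ∧ IsGalois k F ∧
      (∀ σ : F ≃ₐ[k] F, σ ^ N = 1) ∧
      ∀ g : Ω, (∃ (ζ : Ω) (r : ℕ), 0 < r ∧ ζ ^ r = 1 ∧ ζ * g ^ m ∈ K) →
        g ∈ F ⊔ adjoin k {ζ : Ω | ∃ r : ℕ, 0 < r ∧ ζ ^ r = 1} := by
  classical
  -- the normal closure of `K (μ_m)`
  have hfin : {ζ : Ω | ζ ^ m = 1}.Finite := by
    refine ((nthRoots m (1 : Ω)).toFinset.finite_toSet).subset ?_
    intro ζ hζ
    rw [Finset.mem_coe, Multiset.mem_toFinset, mem_nthRoots hm]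
    exact hζ
  have : Finite {ζ : Ω | ζ ^ m = 1} := hfin
  have hKm : FiniteDimensional k (adjoin k {ζ : Ω | ζ ^ m = 1}) :=
    IntermediateField.finiteDimensional_adjoin fun x _ =>
      (Algebra.IsAlgebraic.isAlgebraic x).isIntegral
  set K₁ : IntermediateField k Ω := K ⊔ adjoin k {ζ : Ω | ζ ^ m = 1} with hK₁
  have hK₁fd : FiniteDimensional k K₁ := IntermediateField.finiteDimensional_sup _ _
  set K' : IntermediateField k Ω := IntermediateField.normalClosure k K₁ Ω with hK'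
  have hle : K₁ ≤ K' := IntermediateField.le_normalClosure K₁
  have hK'fd : FiniteDimensional k K' := normalClosure.is_finiteDimensional k K₁ Ω
  have hK'n : Normal k K' := normalClosure.normal k K₁ Ω
  set F : IntermediateField k Ω := adjoin k {y : Ω | y ^ m ∈ K'} with hF
  set N := Nat.card (K' ≃ₐ[k] K') * m with hN
  have hgen : ∀ (σ : Ω ≃ₐ[k] Ω) (y : Ω), y ^ m ∈ K' → (σ ^ N) y = y := by
    intro σ y hy
    by_cases hy0 : y = 0
    · rw [hy0, map_zero]
    set τ := σ ^ Nat.card (K' ≃ₐ[k] K') with hτ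
    have h1 : ∀ x ∈ K', τ x = x := fun x hx => pow_fix σ hx
    have h2 : (τ y / y) ^ m = 1 := by
      rw [div_pow, ← map_pow, h1 _ hy, div_self (pow_ne_zero _ hy0)]
    have h3 : τ y / y ∈ K' := hle ((le_sup_right : _ ≤ K₁)
      (IntermediateField.subset_adjoin _ _ h2))
    have h4 : τ y = τ y / y * y := by rw [div_mul_cancel₀ _ hy0]
    have h5 : ∀ j : ℕ, (τ ^ j) y = (τ y / y) ^ j * y := by
      intro j
      induction j with
      | zero => simp
      | succ j ih =>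
        rw [pow_succ', AlgEquiv.mul_apply, ih, map_mul, map_pow, h1 _ h3, pow_succ, mul_assoc,
          ← h4]
    rw [hN, pow_mul, ← hτ, h5 m, h2, one_mul]
  have hFn : Normal k F := by
    rw [normal_iff_forall_map_le']
    intro σ
    rw [hF, adjoin_map, adjoin_le_iff]
    rintro _ ⟨y, hy, rfl⟩
    refine subset_adjoin _ _ ?_
    show σ y ^ m ∈ K'
    rw [← map_pow]
    have : (AlgEquiv.restrictNormal σ K' ⟨y ^ m, hy⟩ : Ω) = σ (y ^ m) :=
      AlgEquiv.restrictNormal_commutes σ K' ⟨y ^ m, hy⟩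
    rw [← this]
    exact SetLike.coe_mem _
  refine ⟨N, F, Nat.mul_pos Nat.card_pos hm, ⟨⟩, ?_, ?_⟩
  · intro ρ
    obtain ⟨σ, rfl⟩ := AlgEquiv.restrictNormalHom_surjective (F := k) (K₁ := F) Ω ρ
    rw [← map_pow]
    ext ⟨x, hx⟩
    have h1 : ((AlgEquiv.restrictNormalHom F (σ ^ N)) ⟨x, hx⟩ : Ω) = (σ ^ N) x :=
      AlgEquiv.restrictNormal_commutes (σ ^ N) F ⟨x, hx⟩
    rw [h1, AlgEquiv.one_apply]
    show (σ ^ N) x = x
    clear h1
    induction hx using IntermediateField.adjoin_induction with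
    | mem x hx => exact hgen σ x hx
    | algebraMap x => exact AlgEquiv.commutes _ _
    | add x y hx' hy' hx hy => rw [map_add, hx, hy]
    | mul x y hx' hy' hx hy => rw [map_mul, hx, hy]
    | inv x hx' hx => rw [map_inv₀, hx]
  · rintro g ⟨ζ, r, hr, hζ, hg⟩
    obtain ⟨η, hη⟩ := IsAlgClosed.exists_pow_nat_eq ζ hm
    have hζ0 : ζ ≠ 0 := by
      rintro rfl
      rw [zero_pow hr.ne'] at hζ
      exact zero_ne_one hζ
    have hη0 : η ≠ 0 := by
      rintro rfl
      rw [zero_pow hm.ne'] at hη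
      exact hζ0 hη.symm
    have h1 : η * g ∈ F := by
      refine subset_adjoin _ _ ?_
      show (η * g) ^ m ∈ K'
      rw [mul_pow, hη]
      exact hle ((le_sup_left : K ≤ K₁) hg)
    have h2 : η ∈ adjoin k {ζ : Ω | ∃ r : ℕ, 0 < r ∧ ζ ^ r = 1} := by
      refine subset_adjoin _ _ ⟨m * r, Nat.mul_pos hm hr, ?_⟩
      rw [pow_mul, hη, hζ]
    have h3 : g = η⁻¹ * (η * g) := by field_simp
    rw [h3]
    exact mul_mem (inv_mem ((le_sup_right : adjoin k {ζ : Ω | ∃ r : ℕ, 0 < r ∧ ζ ^ r = 1} ≤ _) h2))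
      ((le_sup_left : F ≤ _) h1)

end general

end Pool.Agent.U218.PP
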