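import Mathlib
import Pool.Agent.U218.PP.R1
import Pool.Agent.U218.PP.Ht
import Pool.Agent.U218.LD.Bad
import Pool.Agent.H58P.Ht

/-! # Radicals of bounded order: heights -/

set_option autoImplicit false
set_option linter.all false

open Polynomial Module IntermediateField NumberField Height

namespace Pool.Agent.U218.PP


open Pool.Agent.H58P (qb_isIntegral)

/-- the radicals of bounded order -/
def rad (K : IntermediateField ℚ (AlgebraicClosure ℚ)) (m : ℕ) : Set (AlgebraicClosure ℚ) :=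
  {g : (AlgebraicClosure ℚ) | ∃ (ζ : (AlgebraicClosure ℚ)) (r : ℕ), 0 < r ∧ ζ ^ r = 1 ∧ ζ * g ^ m ∈ K}

lemma adjoin_top (F : IntermediateField ℚ (AlgebraicClosure ℚ)) (E : IntermediateField ℚ (AlgebraicClosure ℚ))
    (hE : E = F ⊔ adjoin ℚ {ζ : (AlgebraicClosure ℚ) | ∃ k : ℕ, 0 < k ∧ ζ ^ k = 1}) (hFE : F ≤ E) :
    letI : Algebra F E := (IntermediateField.inclusion hFE).toAlgebra
    adjoin F {ζ : E | ∃ k : ℕ, 0 < k ∧ ζ ^ k = 1} = ⊤ := by
  letI : Algebra F E := (IntermediateField.inclusion hFE).toAlgebra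
  rw [← top_le_iff]
  have key : ∀ x (hx : x ∈ adjoin ℚ ((F : Set (AlgebraicClosure ℚ)) ∪ {ζ : (AlgebraicClosure ℚ) | ∃ k : ℕ, 0 < k ∧ ζ ^ k = 1})),
      ∀ hx' : x ∈ E, (⟨x, hx'⟩ : E) ∈ adjoin F {ζ : E | ∃ k : ℕ, 0 < k ∧ ζ ^ k = 1} := by
    intro x hx
    have hEe : E = adjoin ℚ ((F : Set (AlgebraicClosure ℚ)) ∪ {ζ : (AlgebraicClosure ℚ) | ∃ k : ℕ, 0 < k ∧ ζ ^ k = 1}) := by
      rw [hE, adjoin_union, adjoin_self]
    induction hx using IntermediateField.adjoin_induction with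
    | mem x hx =>
      intro hx'
      rcases hx with hx | ⟨k, hk, hk1⟩
      · exact (adjoin F {ζ : E | ∃ k : ℕ, 0 < k ∧ ζ ^ k = 1}).algebraMap_mem (⟨x, hx⟩ : F)
      · exact IntermediateField.subset_adjoin _ _ ⟨k, hk, Subtype.ext hk1⟩
    | algebraMap q =>
      intro hx'
      have h1 : (⟨algebraMap ℚ (AlgebraicClosure ℚ) q, hx'⟩ : E) = algebraMap F E (algebraMap ℚ F q) := Subtype.ext rfl
      rw [h1]
      exact (adjoin F {ζ : E | ∃ k : ℕ, 0 < k ∧ ζ ^ k = 1}).algebraMap_mem _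
    | add x y hx hy ihx ihy =>
      intro _
      rw [← hEe] at hx hy
      exact add_mem (ihx hx) (ihy hy)
    | mul x y hx hy ihx ihy =>
      intro _
      rw [← hEe] at hx hy
      exact mul_mem (ihx hx) (ihy hy)
    | inv x hx ihx =>
      intro _
      rw [← hEe] at hx
      exact inv_mem (ihx hx)
  rintro ⟨x, hx⟩ -
  refine key x ?_ hx
  rw [adjoin_union, adjoin_self, ← hE]
  exact hx

lemma one_lt_measure {K : Type*} [Field K] [CharZero K] {α : K} (hα : IsIntegral ℤ α) (h0 : α ≠ 0)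
    (hr : ∀ r : ℕ, 0 < r → α ^ r ≠ 1) :
    1 < ((minpoly ℤ α).map (Int.castRingHom ℂ)).mahlerMeasure := by
  set f := minpoly ℤ α with hf
  have hmon : f.Monic := minpoly.monic hα
  have hirr : Irreducible f := minpoly.irreducible hα
  have h1 : 1 ≤ (f.map (Int.castRingHom ℂ)).mahlerMeasure := by
    apply one_le_mahlerMeasure_of_one_le_norm_leadingCoeff
    rw [(hmon.map _).leadingCoeff, norm_one]
  refine lt_of_le_of_ne h1 fun hM => ?_
  have hdeg : 0 < f.natDegree := minpoly.natDegree_pos hα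
  obtain ⟨z, hz⟩ := IsAlgClosed.exists_root (f.map (Int.castRingHom ℂ)) (by
    rw [degree_map_eq_of_injective (RingHom.injective_int _)]
    exact (natDegree_pos_iff_degree_pos.mp hdeg).ne')
  have hz' : aeval z f = 0 := by
    rw [IsRoot.def, eval_map] at hz
    exact hz
  have hzr : z ∈ f.aroots ℂ := by
    rw [mem_aroots]
    exact ⟨hmon.ne_zero, hz'⟩
  have hz0 : z ≠ 0 := by
    rintro rfl
    have h2 : f.coeff 0 = 0 := by
      rw [aeval_def, eval₂_at_zero] at hz'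
      exact (map_eq_zero_iff _ (RingHom.injective_int _)).mp hz'
    have h3 : X ∣ f := X_dvd_iff.mpr h2
    obtain ⟨q, hq⟩ := Irreducible.dvd_symm Polynomial.irreducible_X hirr h3
    have h4 : aeval α (X : ℤ[X]) = 0 := by rw [hq, map_mul, minpoly.aeval, zero_mul]
    rw [aeval_X] at h4
    exact h0 h4
  obtain ⟨r, hr0, hzr1⟩ := pow_eq_one_of_mahlerMeasure_eq_one hM.symm hz0 hzr
  have hzi : IsIntegral ℤ z := ⟨f, hmon, by rw [← aeval_def]; exact hz'⟩
  have hmin : minpoly ℤ z = f :=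
    eq_of_monic_of_associated (minpoly.monic hzi) hmon
      ((minpoly.irreducible hzi).associated_of_dvd hirr (minpoly.isIntegrallyClosed_dvd hzi hz'))
  have h6 : f ∣ X ^ r - 1 := by
    rw [← hmin]
    exact minpoly.isIntegrallyClosed_dvd hzi (by simp [hzr1])
  apply hr r hr0
  have h7 : aeval α (X ^ r - 1 : ℤ[X]) = 0 := by
    obtain ⟨q, hq⟩ := h6
    rw [hq, map_mul, minpoly.aeval, zero_mul]
  simpa [sub_eq_zero] using h7

theorem aux : ∃ C : ℝ, 1 ≤ C ∧ ∀ N : ℕ, 0 < N → ∀ (Ω E : Type) [Field Ω] [CharZero Ω] [Field E]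
    [CharZero E] [Algebra E Ω] (F' : IntermediateField ℚ E), IsGalois ℚ F' →
    (∀ σ : F' ≃ₐ[ℚ] F', σ ^ N = 1) → F' ⊔ adjoin ℚ (Pool.Agent.U218.RA.mu E) = ⊤ →
    ∀ α : Ω, IsIntegral ℤ α → α ≠ 0 → (∀ r : ℕ, 0 < r → α ^ r ≠ 1) →
      1 ≤ NumberField.absLogHeight₁ α * ((C * N) ^ (26 * N) * ((minpoly E α).natDegree : ℕ) *
        (1 + Real.log ((minpoly E α).natDegree : ℕ)) ^ (4 * N + 5)) := by
  obtain ⟨C, hC, hfin⟩ := Pool.Agent.U218.RA.final.{0}
  refine ⟨C, hC, ?_⟩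
  intro N hN Ω E _ _ _ _ _ F' hG hF htop α hα h0 hr
  have hαE : IsIntegral E α := hα.tower_top
  have hdvd : minpoly E α ∣ (minpoly ℤ α).map (Int.castRingHom E) := by
    apply minpoly.dvd
    rw [aeval_def, eval₂_map]
    have : (algebraMap E Ω).comp (Int.castRingHom E) = algebraMap ℤ Ω := RingHom.ext_int _ _
    rw [this, ← aeval_def, minpoly.aeval]
  have hpos : 0 < (minpoly E α).natDegree := minpoly.natDegree_pos hαE
  have hM := one_lt_measure hα h0 hr
  have h4 := (hfin N hN (minpoly ℤ α) (minpoly.irreducible hα) hM E F' hF htop (minpoly E α) hdvd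
    hpos).1 (minpoly.monic hα)
  rw [← Real.le_log_iff_exp_le (lt_trans one_pos hM)] at h4
  have h5 := h4.trans (height_ge' hα)
  have hC0 : 0 < C := by linarith
  have hN0 : (0 : ℝ) < N := by exact_mod_cast hN
  have hn0 : (0 : ℝ) < ((minpoly ℤ α).natDegree : ℕ) := by
    exact_mod_cast minpoly.natDegree_pos hα
  have hD'1 : (1 : ℝ) ≤ ((minpoly E α).natDegree : ℕ) := by exact_mod_cast hpos
  have hl0 : 0 ≤ Real.log ((minpoly E α).natDegree : ℕ) := Real.log_nonneg hD'1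
  rw [div_le_iff₀ (by positivity)] at h5
  refine le_of_mul_le_mul_left ?_ hn0
  rw [mul_one, ← mul_assoc]
  exact h5

theorem lower (K : IntermediateField ℚ (AlgebraicClosure ℚ)) [FiniteDimensional ℚ K] {m : ℕ} (hm : 0 < m) :
    ∃ A : ℕ, 0 < A ∧ ∀ L : IntermediateField ℚ (AlgebraicClosure ℚ), L ≤ adjoin ℚ (rad K m) →
      ∀ α : (AlgebraicClosure ℚ), IsIntegral ℤ α → α ≠ 0 → (∀ r : ℕ, 0 < r → α ^ r ≠ 1) →
        1 ≤ (A : ℝ) * ((minpoly L α).natDegree : ℕ) *
          (1 + Real.log ((minpoly L α).natDegree : ℕ)) ^ A * NumberField.absLogHeight₁ α := by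
  obtain ⟨N, F, hN, hG, hF, hrad⟩ := @exists_field ℚ (AlgebraicClosure ℚ) _ _ _ _ _ (AlgebraicClosure.isAlgebraic ℚ)
    (@IsAlgClosure.normal ℚ (AlgebraicClosure ℚ) _ _ _ (@IsAlgClosure.mk ℚ (AlgebraicClosure ℚ) _ _ _ _ (AlgebraicClosure.isAlgClosed ℚ)
      (AlgebraicClosure.isAlgebraic ℚ))) K _ m hm
  obtain ⟨C, hC, haux⟩ := aux
  set E : IntermediateField ℚ (AlgebraicClosure ℚ) := F ⊔ adjoin ℚ {ζ : (AlgebraicClosure ℚ) | ∃ k : ℕ, 0 < k ∧ ζ ^ k = 1} with hE
  have hFE : F ≤ E := le_sup_left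
  letI : Algebra F E := (IntermediateField.inclusion hFE).toAlgebra
  have htop : adjoin F {ζ : E | ∃ k : ℕ, 0 < k ∧ ζ ^ k = 1} = ⊤ := adjoin_top F E hE hFE
  have hG' : @IsGalois ℚ _ F _ DivisionRing.toRatAlgebra := by
    have e : (DivisionRing.toRatAlgebra : Algebra ℚ F) = F.algebra' := Subsingleton.elim _ _
    rw [e]; exact hG
  have hF' : ∀ σ : @AlgEquiv ℚ F F _ _ _ DivisionRing.toRatAlgebra DivisionRing.toRatAlgebra,
      σ ^ N = 1 := by
    have e : (DivisionRing.toRatAlgebra : Algebra ℚ F) = F.algebra' := Subsingleton.elim _ _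
    rw [e]; exact hF
  obtain ⟨F', h1, h2, h3⟩ := Pool.Agent.U218.RA.bridge (F := F) (E := E) hG' hF' htop
  have hC0 : 0 < C := by linarith
  have hN0 : (0 : ℝ) < N := by exact_mod_cast hN
  set B : ℝ := (C * N) ^ (26 * N) with hB
  have hB0 : 0 < B := by positivity
  set A : ℕ := ⌈B⌉₊ + (4 * N + 5) with hA
  have hA1 : B ≤ A := (Nat.le_ceil B).trans (by rw [hA]; push_cast; linarith)
  have hA2 : 4 * N + 5 ≤ A := by omega
  refine ⟨A, by omega, fun L hL α hα h0 hr => ?_⟩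
  have hLE : L ≤ E := by
    refine hL.trans ?_
    rw [adjoin_le_iff]
    intro g hg
    exact hrad g hg
  have hαL : IsIntegral L α := hα.tower_top
  have hα' : @IsIntegral ℤ (AlgebraicClosure ℚ) _ _ (Ring.toIntAlgebra _) α := by
    convert hα using 1
    exact Subsingleton.elim _ _
  have hαE : IsIntegral E α := hα.tower_top
  -- degrees
  have hdeg : (minpoly E α).natDegree ≤ (minpoly L α).natDegree := by
    have e1 : (minpoly E α) ∣ (minpoly L α).map (IntermediateField.inclusion hLE).toRingHom := by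
      apply minpoly.dvd
      rw [aeval_def, eval₂_map]
      have : (algebraMap E (AlgebraicClosure ℚ)).comp (IntermediateField.inclusion hLE).toRingHom = algebraMap L (AlgebraicClosure ℚ) :=
        rfl
      rw [this, ← aeval_def, minpoly.aeval]
    have e2 := natDegree_le_of_dvd e1 ((Polynomial.map_ne_zero_iff
      (IntermediateField.inclusion hLE).toRingHom.injective).mpr (minpoly.ne_zero hαL))
    rwa [natDegree_map] at e2
  have hpos : 0 < (minpoly E α).natDegree := minpoly.natDegree_pos hαE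
  have h7 := haux N hN (AlgebraicClosure ℚ) E F' h1 h2 h3 α hα' h0 hr
  set D : ℝ := (((minpoly L α).natDegree : ℕ) : ℝ) with hD
  set D' : ℝ := (((minpoly E α).natDegree : ℕ) : ℝ) with hD'
  set h := NumberField.absLogHeight₁ α with hh
  have hD'1 : 1 ≤ D' := by rw [hD']; exact_mod_cast hpos
  have hDD : D' ≤ D := by rw [hD, hD']; exact_mod_cast hdeg
  have hl0 : 0 ≤ Real.log D' := Real.log_nonneg hD'1
  have hl1 : Real.log D' ≤ Real.log D := Real.log_le_log (by linarith) hDD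
  have hQ0 : 0 < B * D' * (1 + Real.log D') ^ (4 * N + 5) := by positivity
  have hh0 : 0 < h := by
    by_contra hcon
    push Not at hcon
    have : h * (B * D' * (1 + Real.log D') ^ (4 * N + 5)) ≤ 0 :=
      mul_nonpos_of_nonpos_of_nonneg hcon hQ0.le
    linarith
  have h8 : B * D' * (1 + Real.log D') ^ (4 * N + 5) ≤ A * D * (1 + Real.log D) ^ A := by
    have h9 : (1 + Real.log D') ^ (4 * N + 5) ≤ (1 + Real.log D) ^ A := by
      calc (1 + Real.log D') ^ (4 * N + 5) ≤ (1 + Real.log D) ^ (4 * N + 5) := by gcongr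
        _ ≤ (1 + Real.log D) ^ A := pow_le_pow_right₀ (by linarith) hA2
    have hA0 : (0 : ℝ) ≤ A := by positivity
    gcongr
  calc (1 : ℝ) ≤ h * (B * D' * (1 + Real.log D') ^ (4 * N + 5)) := h7
    _ ≤ h * (A * D * (1 + Real.log D) ^ A) := mul_le_mul_of_nonneg_left h8 hh0.le
    _ = A * D * (1 + Real.log D) ^ A * h := by ring

end Pool.Agent.U218.PP
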