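import Mathlib
import Pool.Agent.U218.PP.R2
import Pool.Agent.Results.MP_187c26_nt.RadicalTranslates

/-! # Degrees of the hypersurfaces which contain a translate of codimension one -/

set_option autoImplicit false
set_option linter.all false

open Polynomial Module IntermediateField NumberField

namespace Pool.Agent.U218.PP


open Pool.Agent.Results.MP_187c26_nt.RadicalTranslates (translate mono_eval chi chi_apply
  chi_injective)

theorem degreeOf_ge {n d : ℕ} (L : IntermediateField ℚ (AlgebraicClosure ℚ)) (x : Fin n → (AlgebraicClosure ℚ))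
    (e : Fin n → Fin d → ℤ) (hx : ∀ i, x i ≠ 0) (v : Fin n → ℤ) (hv0 : v ≠ 0)
    (hv : ∀ w : Fin n → ℤ, (∀ j, ∑ i, w i * e i j = 0) → ∃ k : ℤ, w = k • v)
    (hint : IsIntegral L (∏ i, x i ^ v i))
    (f : MvPolynomial (Fin n) L) (hf : f ≠ 0)
    (hV : ∀ y ∈ translate x e, MvPolynomial.aeval y f = 0) (i : Fin n) :
    ((minpoly L (∏ i, x i ^ v i)).natDegree : ℤ) * |v i| ≤ (f.degreeOf i : ℤ) := by
  classical
  set α : (AlgebraicClosure ℚ) := ∏ i, x i ^ v i with hα
  have hα0 : α ≠ 0 := Finset.prod_ne_zero_iff.2 fun i _ => zpow_ne_zero _ (hx i)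
  let u : (Fin n →₀ ℕ) → Fin d → ℤ := fun m j => ∑ i, (m i : ℤ) * e i j
  obtain ⟨m₀, hm₀⟩ := MvPolynomial.support_nonempty.2 hf
  set T : Finset (Fin n →₀ ℕ) := f.support.filter (fun m => u m = u m₀) with hT
  have hm₀T : m₀ ∈ T := Finset.mem_filter.mpr ⟨hm₀, rfl⟩
  -- the relation
  have hli : LinearIndependent (AlgebraicClosure ℚ)
      (fun w : Fin d → ℤ => (chi w : (Fin d → (AlgebraicClosure ℚ)ˣ) → AlgebraicClosure ℚ)) :=
    (linearIndependent_monoidHom (Fin d → (AlgebraicClosure ℚ)ˣ) (AlgebraicClosure ℚ)).comp chi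
      chi_injective
  rw [linearIndependent_iff'] at hli
  have hsum : ∑ m ∈ T, ((f.coeff m : L) : (AlgebraicClosure ℚ)) * ∏ i, x i ^ (m i) = 0 := by
    refine hli (f.support.image u) (fun w => ∑ m ∈ f.support.filter (fun m => u m = w),
      ((f.coeff m : L) : (AlgebraicClosure ℚ)) * ∏ i, x i ^ (m i)) ?_ (u m₀) (Finset.mem_image_of_mem u hm₀)
    funext t
    rw [Finset.sum_apply, Pi.zero_apply,
      ← hV (fun i => x i * ∏ j, (t j : AlgebraicClosure ℚ) ^ e i j) ⟨t, fun _ => rfl⟩,
      MvPolynomial.aeval_def, MvPolynomial.eval₂_eq',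
      ← Finset.sum_fiberwise_of_maps_to (s := f.support) (t := f.support.image u) (g := u)
        (fun m hm => Finset.mem_image_of_mem u hm)]
    refine Finset.sum_congr rfl fun w _ => ?_
    rw [Pi.smul_apply, smul_eq_mul, Finset.sum_mul]
    refine Finset.sum_congr rfl fun m hm => ?_
    have hmw : u m = w := (Finset.mem_filter.mp hm).2
    have h1 := mono_eval x e t (fun i => (m i : ℤ))
    simp only [zpow_natCast] at h1
    have h2 : (fun j => ∑ i, (m i : ℤ) * e i j) = w := hmw
    rw [h1, h2, mul_assoc]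
    rfl
  have hk : ∀ m ∈ T, ∃ k : ℤ, (fun i => (m i : ℤ) - m₀ i) = k • v := by
    intro m hm
    apply hv
    intro j
    have h1 : u m j = u m₀ j := congrFun (Finset.mem_filter.mp hm).2 j
    have h2 : ∑ i, ((m i : ℤ) - m₀ i) * e i j = u m j - u m₀ j := by
      rw [← Finset.sum_sub_distrib]
      exact Finset.sum_congr rfl fun i _ => by ring
    rw [h2, h1, sub_self]
  choose! k hk using hk
  have hki : ∀ m ∈ T, ∀ i, (m i : ℤ) = m₀ i + k m * v i := by
    intro m hm i
    have := congrFun (hk m hm) i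
    simp only [Pi.smul_apply, smul_eq_mul] at this
    linarith
  have hrel : ∑ m ∈ T, ((f.coeff m : L) : (AlgebraicClosure ℚ)) * α ^ (k m) = 0 := by
    have h1 : ∀ m ∈ T, ((f.coeff m : L) : (AlgebraicClosure ℚ)) * ∏ i, x i ^ (m i) =
        (∏ i, x i ^ (m₀ i)) * (((f.coeff m : L) : (AlgebraicClosure ℚ)) * α ^ (k m)) := by
      intro m hm
      have h2 : ∏ i, x i ^ (m i) = (∏ i, x i ^ (m₀ i)) * α ^ (k m) := by
        rw [hα, ← Finset.prod_zpow, ← Finset.prod_mul_distrib]
        refine Finset.prod_congr rfl fun i _ => ?_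
        rw [← zpow_natCast, hki m hm i, zpow_add₀ (hx i), zpow_natCast, mul_comm (k m), zpow_mul]
      rw [h2]; ring
    rw [Finset.sum_congr rfl h1, ← Finset.mul_sum] at hsum
    rcases mul_eq_zero.mp hsum with h | h
    · exact absurd h (Finset.prod_ne_zero_iff.mpr fun i _ => pow_ne_zero _ (hx i))
    · exact h
  have hkinj : ∀ m ∈ T, ∀ m' ∈ T, k m = k m' → m = m' := by
    intro m hm m' hm' h
    ext i
    have h1 := hki m hm i
    have h2 := hki m' hm' i
    rw [h, ← h2] at h1
    exact_mod_cast h1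
  obtain ⟨a, haT, ha⟩ := Finset.exists_min_image T k ⟨m₀, hm₀T⟩
  obtain ⟨b, hbT, hb⟩ := Finset.exists_max_image T k ⟨m₀, hm₀T⟩
  -- the polynomial
  set Q : L[X] := ∑ m ∈ T, Polynomial.C (f.coeff m) * X ^ (k m - k a).toNat with hQ
  have hQα : aeval α Q = 0 := by
    rw [hQ, map_sum]
    have h1 : ∀ m ∈ T, aeval α (Polynomial.C (f.coeff m) * X ^ (k m - k a).toNat : L[X]) =
        α ^ (-(k a)) * (((f.coeff m : L) : (AlgebraicClosure ℚ)) * α ^ (k m)) := by
      intro m hm
      rw [map_mul, aeval_C, map_pow, aeval_X, ← zpow_natCast, Int.toNat_of_nonneg (by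
        have := ha m hm; linarith), sub_eq_add_neg, zpow_add₀ hα0]
      show ((f.coeff m : L) : (AlgebraicClosure ℚ)) * _ = _
      ring
    rw [Finset.sum_congr rfl h1, ← Finset.mul_sum, hrel, mul_zero]
  have hQ0 : Q ≠ 0 := by
    intro h
    have h1 : Q.coeff (k a - k a).toNat = f.coeff a := by
      rw [hQ, finset_sum_coeff, Finset.sum_eq_single a]
      · rw [coeff_C_mul, coeff_X_pow, if_pos rfl, mul_one]
      · intro m hm hma
        rw [coeff_C_mul, coeff_X_pow, if_neg, mul_zero]
        intro h2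
        apply hma
        apply hkinj m hm a haT
        have := ha m hm
        omega
      · intro h; exact absurd haT h
    rw [h, coeff_zero] at h1
    exact (MvPolynomial.mem_support_iff.mp (Finset.mem_filter.mp haT).1) h1.symm
  have hQd : Q.natDegree ≤ (k b - k a).toNat := by
    rw [hQ]
    refine natDegree_sum_le_of_forall_le _ _ fun m hm => ?_
    refine (natDegree_C_mul_X_pow_le _ _).trans ?_
    have := hb m hm
    omega
  have hD : (minpoly L α).natDegree ≤ (k b - k a).toNat :=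
    (natDegree_le_of_dvd (minpoly.dvd L α hQα) hQ0).trans hQd
  have hab : k a ≤ k b := ha b hbT
  have hD' : ((minpoly L α).natDegree : ℤ) ≤ k b - k a := by omega
  have h1 := hki a haT i
  have h2 := hki b hbT i
  have h3 : ((b i : ℤ) - a i) = (k b - k a) * v i := by rw [h1, h2]; ring
  have h4 : (a i : ℤ) ≤ f.degreeOf i := by
    exact_mod_cast MvPolynomial.monomial_le_degreeOf i (Finset.mem_filter.mp haT).1
  have h5 : (b i : ℤ) ≤ f.degreeOf i := by
    exact_mod_cast MvPolynomial.monomial_le_degreeOf i (Finset.mem_filter.mp hbT).1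
  have h6 : |((b i : ℤ) - a i)| ≤ f.degreeOf i := by
    rw [abs_le]
    constructor <;> omega
  calc ((minpoly L α).natDegree : ℤ) * |v i| ≤ (k b - k a) * |v i| :=
        mul_le_mul_of_nonneg_right hD' (abs_nonneg _)
    _ = |(k b - k a) * v i| := by rw [abs_mul, abs_of_nonneg (by omega : (0:ℤ) ≤ k b - k a)]
    _ ≤ f.degreeOf i := by rw [← h3]; exact h6

end Pool.Agent.U218.PP
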