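import Mathlib
import Pool.Agent.U218.RA.Br
import Pool.Agent.H389R3.PR1

/-! # Parry powers and factors over composita -/

set_option autoImplicit false
set_option linter.all false

universe u

open Polynomial Module IntermediateField

namespace Pool.Agent.U218.PP

theorem deg_mul {K₀ E₀ : Type*} [Field K₀] [Field E₀] [Algebra K₀ E₀] {β : E₀}
    (L : IntermediateField K₀ E₀) (hL : L ≤ K₀⟮β⟯) (hβ : IsIntegral K₀ β) (hβL : IsIntegral L β) :
    finrank K₀ L * (minpoly L β).natDegree = (minpoly K₀ β).natDegree := by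
  have h2 : (L⟮β⟯).restrictScalars K₀ = K₀⟮β⟯ := by
    rw [restrictScalars_adjoin_eq_sup]
    exact sup_eq_right.mpr hL
  have h3 : finrank K₀ K₀⟮β⟯ = finrank K₀ L⟮β⟯ := by
    rw [← h2]; rfl
  rw [← IntermediateField.adjoin.finrank hβ, h3, ← IntermediateField.adjoin.finrank hβL]
  exact Module.finrank_mul_finrank K₀ L L⟮β⟯

/-- a subfield `L` of `ℚ(β)` which embeds into `E` gives a factor of the minimal polynomial -/
theorem exists_factor {β : ℝ} (hβ : IsIntegral ℤ β) (L : IntermediateField ℚ ℝ) (hL : L ≤ ℚ⟮β⟯)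
    {E : Type u} [Field E] [CharZero E] (φ : L →+* E) :
    ∃ g : E[X], g ∣ (minpoly ℤ β).map (Int.castRingHom E) ∧ 0 < g.natDegree ∧
      finrank ℚ L * g.natDegree = (minpoly ℤ β).natDegree := by
  have hβQ : IsIntegral ℚ β := hβ.tower_top
  have hβL : IsIntegral L β := hβ.tower_top
  refine ⟨(minpoly L β).map φ, ?_, ?_, ?_⟩
  · have h1 : minpoly L β ∣ (minpoly ℚ β).map (algebraMap ℚ L) :=
      minpoly.dvd_map_of_isScalarTower ℚ L β
    have h2 := Polynomial.map_dvd φ h1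
    have h3 : (minpoly ℤ β).map (Int.castRingHom E) =
        ((minpoly ℚ β).map (algebraMap ℚ L)).map φ := by
      rw [minpoly.isIntegrallyClosed_eq_field_fractions' ℚ hβ, Polynomial.map_map,
        Polynomial.map_map]
      congr 1
      exact RingHom.ext_int _ _
    rw [h3]
    exact h2
  · rw [natDegree_map]
    exact minpoly.natDegree_pos hβL
  · rw [natDegree_map]
    have h1 : (minpoly ℤ β).natDegree = (minpoly ℚ β).natDegree := by
      rw [minpoly.isIntegrallyClosed_eq_field_fractions' ℚ hβ, natDegree_map_eq_of_injective]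
      exact RingHom.injective_int _
    rw [h1]
    exact deg_mul L hL hβQ hβL

open Pool.Agent.H389R3.PR Pool.Agent.U218.RA Pool.Agent.U218.LD

/-- The quantitative statement. -/
theorem thm1 : ∃ C : ℝ, 1 ≤ C ∧ ∀ m : ℕ, 0 < m → ∀ β : ℝ, 1 < β → IsIntegral ℤ β →
    (∀ z : ℂ, aeval z (minpoly ℤ β) = 0 → z ≠ (β : ℂ) → ‖z‖ < β) → (parry β).Infinite →
    ∀ (E : Type u) [Field E] [CharZero E] (F : IntermediateField ℚ E) [IsGalois ℚ F],
      (∀ σ : F ≃ₐ[ℚ] F, σ ^ m = 1) → F ⊔ adjoin ℚ (mu E) = ⊤ →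
    ∀ g : E[X], g ∣ (minpoly ℤ β).map (Int.castRingHom E) → 0 < g.natDegree →
      ((minpoly ℤ β).natDegree : ℝ) / ((C * m) ^ (26 * m) * g.natDegree *
        (1 + Real.log g.natDegree) ^ (4 * m + 5)) ≤ Real.log β := by
  obtain ⟨C, hC, h⟩ := Pool.Agent.U218.RA.final.{u}
  refine ⟨C, hC, ?_⟩
  intro m hm β hβ1 hβ hP hinf E _ _ F _ hF hE g hg hg0
  have hM := mahler_eq hβ1 hβ (fun z hz hne => conj_le_one hβ1 hβ hP hinf hz hne)
  have h1 := (h m hm (minpoly ℤ β) (minpoly.irreducible hβ) (by rw [hM]; exact hβ1) E F hF hE g hg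
    hg0).1 (minpoly.monic hβ)
  rw [hM] at h1
  rwa [Real.le_log_iff_exp_le (by linarith)]

/-- The power saving. -/
theorem thm2 (ε : ℝ) (hε : 0 < ε) : ∃ c : ℝ, 0 < c ∧ ∃ κ : ℝ, 0 < κ ∧ ∀ m : ℕ, 0 < m →
    ∀ β : ℝ, 1 < β → IsIntegral ℤ β →
    (∀ z : ℂ, aeval z (minpoly ℤ β) = 0 → z ≠ (β : ℂ) → ‖z‖ < β) → (parry β).Infinite →
    m * Real.log (Real.log (3 * (minpoly ℤ β).natDegree)) ≤
      c * Real.log (3 * (minpoly ℤ β).natDegree) →
    ∀ (E : Type u) [Field E] [CharZero E] (F : IntermediateField ℚ E) [IsGalois ℚ F],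
      (∀ σ : F ≃ₐ[ℚ] F, σ ^ m = 1) → F ⊔ adjoin ℚ (mu E) = ⊤ →
    ∀ g : E[X], g ∣ (minpoly ℤ β).map (Int.castRingHom E) → 0 < g.natDegree →
      (g.natDegree : ℝ) ≤ ((minpoly ℤ β).natDegree : ℝ) ^ (1 - ε) →
      κ * ((minpoly ℤ β).natDegree : ℝ) ^ (ε / 2) ≤ Real.log β := by
  obtain ⟨C, hC, h⟩ := thm1.{u}
  obtain ⟨c, hc, κ, hκ, hr⟩ := real_cor hC hε
  refine ⟨c, hc, κ, hκ, ?_⟩
  intro m hm β hβ1 hβ hP hinf hmn E _ _ F _ hF hE g hg hg0 hgn
  have hn : 1 ≤ (minpoly ℤ β).natDegree := minpoly.natDegree_pos hβ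
  exact (hr m _ _ hm (by exact_mod_cast hg0) (by exact_mod_cast hn) hgn hmn).trans
    (h m hm β hβ1 hβ hP hinf E F hF hE g hg hg0)

/-- Finiteness of the set of real algebraic integers with bounded degree and with all conjugates
bounded. -/
theorem finite_of_natDegree_le (N : ℕ) (B : ℝ) :
    {β : ℝ | IsIntegral ℤ β ∧ (minpoly ℤ β).natDegree ≤ N ∧
      ((minpoly ℤ β).map (Int.castRingHom ℂ)).mahlerMeasure ≤ B}.Finite := by
  have h1 := Polynomial.finite_mahlerMeasure_le N (Real.toNNReal B)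
  have h2 : (⋃ p ∈ {p : ℤ[X] | p.natDegree ≤ N ∧
      (p.map (Int.castRingHom ℂ)).mahlerMeasure ≤ (Real.toNNReal B : ℝ)},
        {x : ℝ | x ∈ (p.map (Int.castRingHom ℝ)).roots}).Finite := by
    refine h1.biUnion fun p _ => ?_
    exact (Multiset.finite_toSet _)
  refine h2.subset ?_
  rintro β ⟨hβ, hN, hB⟩
  refine Set.mem_biUnion (x := minpoly ℤ β) ⟨hN, hB.trans (Real.le_coe_toNNReal B)⟩ ?_
  rw [Set.mem_setOf_eq, mem_roots ((minpoly.monic hβ).map _).ne_zero, IsRoot.def, eval_map]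
  exact minpoly.aeval ℤ β

end Pool.Agent.U218.PP
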