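import Mathlib
import Pool.Agent.U218.RA.Br
import Pool.Agent.TH845.KN.B2

/-! # Mahler measures of polynomials of small degree over composita -/

set_option autoImplicit false
set_option linter.all false

universe u

open Polynomial Module IntermediateField Filter

namespace Pool.Agent.U218.PP

/-- a multiplicative monoid generated by a set which is finite below every bound -/
theorem monoid_finite {P : Set ℝ} (h1 : ∀ x ∈ P, 1 ≤ x) (hP : ∀ B : ℝ, (P ∩ Set.Iic B).Finite)
    (B : ℝ) : ((Submonoid.closure P : Set ℝ) ∩ Set.Iic B).Finite := by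
  classical
  -- a gap
  obtain ⟨δ, hδ, hgap⟩ : ∃ δ : ℝ, 1 < δ ∧ ∀ x ∈ P, x = 1 ∨ δ ≤ x := by
    have hf := hP 2
    by_cases hne : ((P ∩ Set.Iic 2) \ {1}).Nonempty
    · have hf2 : ((P ∩ Set.Iic 2) \ {1}).Finite := hf.subset Set.diff_subset
      obtain ⟨y, hy, hmin⟩ := Set.exists_min_image _ id hf2 hne
      refine ⟨y, lt_of_le_of_ne (h1 y hy.1.1) (fun h => hy.2 h.symm), fun x hx => ?_⟩
      by_cases hx1 : x = 1
      · exact Or.inl hx1
      · right
        by_cases hx2 : x ≤ 2
        · exact hmin x ⟨⟨hx, hx2⟩, hx1⟩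
        · have : y ≤ 2 := hy.1.2
          push Not at hx2
          linarith
    · rw [Set.not_nonempty_iff_eq_empty] at hne
      refine ⟨2, by norm_num, fun x hx => ?_⟩
      by_contra hcon
      push Not at hcon
      have : x ∈ (P ∩ Set.Iic 2) \ {1} := ⟨⟨hx, hcon.2.le⟩, hcon.1⟩
      rw [hne] at this
      exact this
  have hge : ∀ x ∈ Submonoid.closure P, 1 ≤ x := by
    intro x hx
    induction hx using Submonoid.closure_induction with
    | mem x hx => exact h1 x hx
    | one => exact le_rfl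
    | mul x y _ _ hx hy => nlinarith
  have hdec : ∀ x ∈ Submonoid.closure P, x = 1 ∨
      ∃ a ∈ P, δ ≤ a ∧ ∃ y ∈ Submonoid.closure P, x = a * y := by
    intro x hx
    induction hx using Submonoid.closure_induction_left with
    | one => exact Or.inl rfl
    | mul_left a ha y hy ih =>
      rcases hgap a ha with h | h
      · subst h
        rw [one_mul]
        exact ih
      · exact Or.inr ⟨a, ha, h, y, hy, rfl⟩
  have hk : ∀ k : ℕ, ((Submonoid.closure P : Set ℝ) ∩ Set.Iic (δ ^ k)).Finite := by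
    intro k
    induction k with
    | zero =>
      refine (Set.finite_singleton (1 : ℝ)).subset ?_
      rintro x ⟨hx, hx1⟩
      rw [pow_zero] at hx1
      exact le_antisymm hx1 (hge x hx)
    | succ k ih =>
      refine ((Set.finite_singleton (1 : ℝ)).union
        (Set.Finite.image2 (fun a y : ℝ => a * y) (hP (δ ^ (k + 1))) ih)).subset ?_
      rintro x ⟨hx, hxB⟩
      rcases hdec x hx with h | ⟨a, ha, haδ, y, hy, rfl⟩
      · exact Or.inl h
      · right
        have hy1 := hge y hy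
        have ha0 : 0 < a := by linarith
        have hxB' : a * y ≤ δ ^ (k + 1) := hxB
        refine ⟨a, ⟨ha, ?_⟩, y, ⟨hy, ?_⟩, rfl⟩
        · show a ≤ δ ^ (k + 1)
          nlinarith
        · show y ≤ δ ^ k
          have h3 : δ * y ≤ δ * δ ^ k := by
            calc δ * y ≤ a * y := mul_le_mul_of_nonneg_right haδ (by linarith)
              _ ≤ δ ^ (k + 1) := hxB'
              _ = δ * δ ^ k := by ring
          exact le_of_mul_le_mul_left h3 (by linarith)
  obtain ⟨k, hkB⟩ := pow_unbounded_of_one_lt B hδ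
  refine (hk k).subset ?_
  rintro x ⟨hx, hxB⟩
  exact ⟨hx, le_trans hxB hkB.le⟩

theorem isClosed_of_finite_below {S : Set ℝ} (h : ∀ B : ℝ, (S ∩ Set.Iic B).Finite) :
    IsClosed S := by
  rw [← isOpen_compl_iff, isOpen_iff_mem_nhds]
  intro x hx
  have h1 : (S ∩ Set.Iic (x + 1))ᶜ ∈ nhds x :=
    (h (x + 1)).isClosed.isOpen_compl.mem_nhds (fun hc => hx hc.1)
  filter_upwards [h1, Iio_mem_nhds (show x < x + 1 by linarith)] with y hy hy1 hyS
  exact hy ⟨hyS, le_of_lt (show y < x + 1 from hy1)⟩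

open Pool.Agent.H261R2.CM Pool.Agent.W242.IM in
theorem LL_mono' {K K' : ℝ} (h : K ≤ K') : LL K ⊆ LL K' := by
  rintro x ⟨k, hk, F, G, hF, hG, hFG, hK, hx⟩
  exact ⟨k, hk, F, G, hF, hG, hFG, hK.trans h, hx⟩

open Pool.Agent.H261R2.CM Pool.Agent.W242.IM in
/-- a set of Mahler measures which is finite below every bound has bounded companions -/
theorem BC_of_finite {P : Set ℝ} (h1 : ∀ x ∈ P, ∃ A : ℤ[X], A ≠ 0 ∧ x = m1 A)
    (hP : ∀ B : ℝ, (P ∩ Set.Iic B).Finite) : Pool.Agent.TH845.KN.BC P := by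
  intro B
  have hmem : ∀ x ∈ P, ∃ K : ℝ, x ∈ LL K := by
    intro x hx
    obtain ⟨A, hA, rfl⟩ := h1 x hx
    exact ⟨mx1 A 1, m1_mem_LL A 1 hA one_ne_zero isRelPrime_one_right _ le_rfl⟩
  have hf : (P ∩ Set.Iio B).Finite := (hP B).subset
    (Set.inter_subset_inter_right _ Set.Iio_subset_Iic_self)
  choose! K hK using hmem
  obtain ⟨K₀, hK₀⟩ := (hf.image K).bddAbove
  refine ⟨K₀, ?_⟩
  intro x hx
  exact LL_mono' (hK₀ (Set.mem_image_of_mem K hx)) (hK x hx.1)

end Pool.Agent.U218.PP
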