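import Mathlib

/-! # Degrees over an abelian extension -/

set_option autoImplicit false
set_option linter.all false

open Polynomial Module IntermediateField

namespace Pool.Agent.U218.PP

section general

variable {L Ω : Type*} [Field L] [CharZero L] [Field Ω] [Algebra L Ω] [IsAlgClosed Ω]
  [Algebra.IsAlgebraic L Ω] [Normal L Ω]

/-- an abelian subfield of a Galois extension has small degree -/
theorem finrank_le_card_ab (N M : IntermediateField L Ω) [FiniteDimensional L N] [Normal L N]
    [Normal L M] (hMN : M ≤ N)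
    (hT : ∀ (σ τ : Ω ≃ₐ[L] Ω), ∀ x ∈ M, σ (τ x) = τ (σ x)) :
    finrank L M ≤ Nat.card (Abelianization (N ≃ₐ[L] N)) := by
  letI : Algebra M N := (IntermediateField.inclusion hMN).toAlgebra
  haveI : IsScalarTower L M N := IsScalarTower.of_algebraMap_eq fun x => rfl
  haveI : FiniteDimensional L M := FiniteDimensional.of_injective
    (IntermediateField.inclusion hMN).toLinearMap (IntermediateField.inclusion hMN).injective
  haveI : IsGalois L M := ⟨⟩
  have hcomm : ∀ a b : M ≃ₐ[L] M, a * b = b * a := by
    intro a b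
    obtain ⟨σ, rfl⟩ := AlgEquiv.restrictNormalHom_surjective (F := L) (K₁ := M) Ω a
    obtain ⟨τ, rfl⟩ := AlgEquiv.restrictNormalHom_surjective (F := L) (K₁ := M) Ω b
    rw [← map_mul, ← map_mul]
    ext ⟨x, hx⟩
    have h1 : ((AlgEquiv.restrictNormalHom M (σ * τ)) ⟨x, hx⟩ : Ω) = (σ * τ) x :=
      AlgEquiv.restrictNormal_commutes (σ * τ) M ⟨x, hx⟩
    have h2 : ((AlgEquiv.restrictNormalHom M (τ * σ)) ⟨x, hx⟩ : Ω) = (τ * σ) x :=
      AlgEquiv.restrictNormal_commutes (τ * σ) M ⟨x, hx⟩
    rw [h1, h2]
    exact hT σ τ x hx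
  letI : CommGroup (M ≃ₐ[L] M) := { (inferInstance : Group (M ≃ₐ[L] M)) with mul_comm := hcomm }
  let f : (N ≃ₐ[L] N) →* (M ≃ₐ[L] M) := AlgEquiv.restrictNormalHom M
  have hf : Function.Surjective f := AlgEquiv.restrictNormalHom_surjective (F := L) (K₁ := M) N
  have hf' : Function.Surjective (Abelianization.lift f) := by
    intro y
    obtain ⟨x, rfl⟩ := hf y
    exact ⟨Abelianization.of x, Abelianization.lift_apply_of f x⟩
  have h1 : Nat.card (M ≃ₐ[L] M) = finrank L M := IsGalois.card_aut_eq_finrank L M
  rw [← h1]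
  haveI : Finite (Abelianization (N ≃ₐ[L] N)) :=
    Finite.of_surjective (Abelianization.of (G := N ≃ₐ[L] N)) (QuotientGroup.mk_surjective)
  exact Nat.card_le_card_of_surjective _ hf'

theorem degree_le_mul (N T : IntermediateField L Ω) [FiniteDimensional L N] [Normal L N]
    [Normal L T] (hT : ∀ (σ τ : Ω ≃ₐ[L] Ω), ∀ x ∈ T, σ (τ x) = τ (σ x)) {α : Ω} (hα : α ∈ N) :
    (minpoly L α).natDegree ≤
      Nat.card (Abelianization (N ≃ₐ[L] N)) * (minpoly T α).natDegree := by
  set M : IntermediateField L Ω := N ⊓ T with hM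
  haveI hMn : Normal L M := IntermediateField.normal_inf L Ω N T
  have hαL : IsIntegral L α := (Algebra.IsAlgebraic.isAlgebraic α).isIntegral
  have hαT : IsIntegral T α := hαL.tower_top
  have hαM : IsIntegral M α := hαL.tower_top
  haveI : FiniteDimensional L M := FiniteDimensional.of_injective
    (IntermediateField.inclusion (inf_le_left : M ≤ N)).toLinearMap
    (IntermediateField.inclusion (inf_le_left : M ≤ N)).injective
  have h1 : finrank L M ≤ Nat.card (Abelianization (N ≃ₐ[L] N)) :=
    finrank_le_card_ab N M inf_le_left fun σ τ x hx => hT σ τ x hx.2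
  -- the degree over `M`
  have h2 : (minpoly L α).natDegree ≤ finrank L M * (minpoly M α).natDegree := by
    haveI : FiniteDimensional M M⟮α⟯ := adjoin.finiteDimensional hαM
    haveI : FiniteDimensional L M⟮α⟯ := FiniteDimensional.trans L M M⟮α⟯
    haveI : IsScalarTower L M⟮α⟯ Ω := IsScalarTower.of_algebraMap_eq fun x => rfl
    have e1 : minpoly L (AdjoinSimple.gen M α) = minpoly L α := by
      have h6 : algebraMap M⟮α⟯ Ω (AdjoinSimple.gen M α) = α := AdjoinSimple.algebraMap_gen M α
      conv_rhs => rw [← h6]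
      exact (minpoly.algebraMap_eq (algebraMap M⟮α⟯ Ω).injective _).symm
    rw [← e1, ← adjoin.finrank hαM, Module.finrank_mul_finrank]
    exact minpoly.natDegree_le _
  -- the minimal polynomial over `T` has coefficients in `M`
  have h3 : (minpoly M α).natDegree ≤ (minpoly T α).natDegree := by
    set q : Polynomial Ω := (minpoly T α).map (algebraMap T Ω) with hq
    have hqm : q.Monic := (minpoly.monic hαT).map _
    have hqd : q ∣ (minpoly L α).map (algebraMap L Ω) := by
      have h4 : minpoly T α ∣ (minpoly L α).map (algebraMap L T) :=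
        minpoly.dvd_map_of_isScalarTower L T α
      have h5 := Polynomial.map_dvd (algebraMap T Ω) h4
      rw [Polynomial.map_map, ← IsScalarTower.algebraMap_eq] at h5
      exact h5
    have hroots : ∀ r ∈ q.roots, r ∈ (algebraMap N Ω).range := by
      intro r hr
      have hr1 : (q).IsRoot r := isRoot_of_mem_roots hr
      have hr2 : ((minpoly L α).map (algebraMap L Ω)).IsRoot r := hr1.dvd hqd
      have hsp : ((minpoly L α).map (algebraMap L N)).Splits := by
        have := Normal.splits (F := L) (K := N) inferInstance (⟨α, hα⟩ : N)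
        rwa [show minpoly L (⟨α, hα⟩ : N) = minpoly L α from
          (minpoly.algebraMap_eq (algebraMap N Ω).injective (⟨α, hα⟩ : N)).symm] at this
      have hr3 : r ∈ (((minpoly L α).map (algebraMap L N)).map (algebraMap N Ω)).roots := by
        rw [Polynomial.map_map, ← IsScalarTower.algebraMap_eq, mem_roots
          (Polynomial.map_ne_zero (minpoly.ne_zero hαL))]
        exact hr2
      rw [hsp.roots_map, Multiset.mem_map] at hr3
      obtain ⟨y, _, rfl⟩ := hr3
      exact ⟨y, rfl⟩
    have hlN : q ∈ Polynomial.lifts (algebraMap N Ω) :=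
      (IsAlgClosed.splits q).mem_lift_of_roots_mem_range hqm _ hroots
    have hcoef : ∀ i, q.coeff i ∈ M := by
      intro i
      refine ⟨?_, ?_⟩
      · obtain ⟨y, hy⟩ := (Polynomial.lifts_iff_coeff_lifts q).mp hlN i
        rw [← hy]
        exact y.2
      · rw [hq, coeff_map]
        exact ((minpoly T α).coeff i).2
    obtain ⟨p, hp⟩ : ∃ p : Polynomial M, p.map (algebraMap M Ω) = q := by
      have : q ∈ Polynomial.lifts (algebraMap M Ω) :=
        (Polynomial.lifts_iff_coeff_lifts q).mpr fun i => ⟨⟨q.coeff i, hcoef i⟩, rfl⟩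
      exact (Polynomial.mem_lifts q).mp this
    have hp0 : aeval α p = 0 := by
      rw [← eval_map_algebraMap, hp, hq, eval_map_algebraMap, minpoly.aeval]
    have hpne : p ≠ 0 := by
      rintro rfl
      rw [Polynomial.map_zero] at hp
      exact hqm.ne_zero hp.symm
    have h4 := natDegree_le_of_dvd (minpoly.dvd M α hp0) hpne
    have h5 : p.natDegree = (minpoly T α).natDegree := by
      rw [← natDegree_map (algebraMap M Ω), hp, hq, natDegree_map]
    rwa [h5] at h4
  exact h2.trans (Nat.mul_le_mul h1 h3)

end general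

end Pool.Agent.U218.PP
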