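import Mathlib
import Pool.Agent.U218.PP.R2
import Pool.Agent.U218.PP.S1

/-! # Degrees over the field of a division group -/

set_option autoImplicit false
set_option linter.all false

open Polynomial Module IntermediateField NumberField

namespace Pool.Agent.U218.PP

/-- the field generated by the radicals of order `m` over `K`, up to roots of unity -/
noncomputable def radField (K : IntermediateField ℚ (AlgebraicClosure ℚ)) (m : ℕ) :
    IntermediateField ℚ (AlgebraicClosure ℚ) :=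
  adjoin ℚ (rad K m)

/-- the elements with a positive power in `Γ` -/
def divSet (Γ : Subgroup (AlgebraicClosure ℚ)ˣ) : Set (AlgebraicClosure ℚ) :=
  {y | ∃ n : ℕ, 0 < n ∧ ∃ g ∈ Γ, y ^ n = ((g : (AlgebraicClosure ℚ)ˣ) : AlgebraicClosure ℚ)}

lemma root_mem_radField (K : IntermediateField ℚ (AlgebraicClosure ℚ)) (m : ℕ)
    {ζ : AlgebraicClosure ℚ} {r : ℕ} (hr : 0 < r) (hζ : ζ ^ r = 1) : ζ ∈ radField K m := by
  refine subset_adjoin _ _ ⟨(ζ ^ m)⁻¹, r, hr, ?_, ?_⟩
  · rw [inv_pow, ← pow_mul, mul_comm, pow_mul, hζ, one_pow, inv_one]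
  · have hζ0 : ζ ≠ 0 := by
      rintro rfl
      rw [zero_pow hr.ne'] at hζ
      exact zero_ne_one hζ
    rw [inv_mul_cancel₀ (pow_ne_zero _ hζ0)]
    exact one_mem K

theorem degree_le (L : IntermediateField ℚ (AlgebraicClosure ℚ))
    (hroot : ∀ (ζ : AlgebraicClosure ℚ) (r : ℕ), 0 < r → ζ ^ r = 1 → ζ ∈ L)
    (Γ : Subgroup (AlgebraicClosure ℚ)ˣ)
    (hΓ : ∀ g ∈ Γ, ((g : (AlgebraicClosure ℚ)ˣ) : AlgebraicClosure ℚ) ∈ L)
    (N : IntermediateField L (AlgebraicClosure ℚ))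
    [FiniteDimensional L N] [Normal L N] {α : AlgebraicClosure ℚ}
    (hα : α ∈ N) :
    (minpoly L α).natDegree ≤
      Nat.card (Abelianization (N ≃ₐ[L] N)) *
        (minpoly (adjoin ℚ (divSet Γ)) α).natDegree := by
  haveI hAlg : Algebra.IsAlgebraic L (AlgebraicClosure ℚ) :=
    @Algebra.IsAlgebraic.tower_top ℚ L (AlgebraicClosure ℚ) _ _ _ _ _ _ _
      (AlgebraicClosure.isAlgebraic ℚ)
  haveI : IsAlgClosure L (AlgebraicClosure ℚ) := ⟨inferInstance, hAlg⟩
  haveI : Normal L (AlgebraicClosure ℚ) := inferInstance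
  set T : IntermediateField L (AlgebraicClosure ℚ) := adjoin L (divSet Γ) with hT
  have hmov : ∀ (σ : AlgebraicClosure ℚ ≃ₐ[L] AlgebraicClosure ℚ), ∀ y ∈ divSet Γ,
      ∃ ζ ∈ L, σ y = ζ * y := by
    rintro σ y ⟨n, hn, g, hg, hy⟩
    have hgL := hΓ g hg
    have h1 : σ ((g : (AlgebraicClosure ℚ)ˣ) : AlgebraicClosure ℚ) = g :=
      σ.commutes ⟨_, hgL⟩
    have hy0 : y ≠ 0 := by
      rintro rfl
      rw [zero_pow hn.ne'] at hy
      exact g.ne_zero hy.symm
    have h2 : (σ y / y) ^ n = 1 := by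
      rw [div_pow, ← map_pow, hy, h1, div_self g.ne_zero]
    exact ⟨σ y / y, hroot _ n hn h2, by rw [div_mul_cancel₀ _ hy0]⟩
  have hTn : Normal L T := by
    rw [normal_iff_forall_map_le']
    intro σ
    rw [hT, adjoin_map, adjoin_le_iff]
    rintro _ ⟨y, ⟨n, hn, g, hg, hy⟩, rfl⟩
    refine subset_adjoin _ _ ⟨n, hn, g, hg, ?_⟩
    have h1 : σ ((g : (AlgebraicClosure ℚ)ˣ) : AlgebraicClosure ℚ) = g :=
      σ.commutes ⟨_, hΓ g hg⟩
    show (σ y) ^ n = _
    rw [← map_pow, hy, h1]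
  have hcomm : ∀ (σ τ : AlgebraicClosure ℚ ≃ₐ[L] AlgebraicClosure ℚ), ∀ x ∈ T,
      σ (τ x) = τ (σ x) := by
    intro σ τ x hx
    induction hx using IntermediateField.adjoin_induction with
    | mem y hy =>
      obtain ⟨ζ, hζ, h1⟩ := hmov σ y hy
      obtain ⟨ξ, hξ, h2⟩ := hmov τ y hy
      have h3 : σ ξ = ξ := σ.commutes ⟨ξ, hξ⟩
      have h4 : τ ζ = ζ := τ.commutes ⟨ζ, hζ⟩
      rw [h2, map_mul, h3, h1, map_mul, h4, h2]
      ring
    | algebraMap x => rw [AlgEquiv.commutes, AlgEquiv.commutes, AlgEquiv.commutes]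
    | add x y hx' hy' hx hy => rw [map_add, map_add, hx, hy, map_add, map_add]
    | mul x y hx' hy' hx hy => rw [map_mul, map_mul, hx, hy, map_mul, map_mul]
    | inv x hx' hx => rw [map_inv₀, map_inv₀, hx, map_inv₀, map_inv₀]
  have h1 := degree_le_mul N T hcomm hα
  refine h1.trans (Nat.mul_le_mul_left _ ?_)
  -- the degree over the smaller field
  have hle : ∀ x ∈ adjoin ℚ (divSet Γ), x ∈ T := by
    have h2 : adjoin ℚ (divSet Γ) ≤ T.restrictScalars ℚ := by
      rw [adjoin_le_iff]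
      intro y hy
      exact subset_adjoin L (divSet Γ) hy
    exact h2
  have hint : IsIntegral (adjoin ℚ (divSet Γ)) α :=
    (Pool.Agent.H58P.qb_isIntegral α).tower_top
  let ι : adjoin ℚ (divSet Γ) →+* T :=
    { toFun := fun x => ⟨x.1, hle x.1 x.2⟩
      map_one' := rfl
      map_mul' := fun _ _ => rfl
      map_zero' := rfl
      map_add' := fun _ _ => rfl }
  have e1 : minpoly T α ∣ (minpoly (adjoin ℚ (divSet Γ)) α).map ι := by
    apply minpoly.dvd
    rw [aeval_def, eval₂_map]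
    have : (algebraMap T (AlgebraicClosure ℚ)).comp ι =
        algebraMap (adjoin ℚ (divSet Γ)) (AlgebraicClosure ℚ) := rfl
    rw [this, ← aeval_def, minpoly.aeval]
  have e2 := natDegree_le_of_dvd e1 ((Polynomial.map_ne_zero_iff ι.injective).mpr
    (minpoly.ne_zero hint))
  rwa [natDegree_map] at e2

theorem main_div (K : IntermediateField ℚ (AlgebraicClosure ℚ)) [FiniteDimensional ℚ K] {m : ℕ}
    (hm : 0 < m) : ∃ A : ℕ, 0 < A ∧ ∀ Γ : Subgroup (AlgebraicClosure ℚ)ˣ,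
      (∀ g ∈ Γ, ((g : (AlgebraicClosure ℚ)ˣ) : AlgebraicClosure ℚ) ∈ radField K m) →
      ∀ (N : IntermediateField (radField K m) (AlgebraicClosure ℚ)),
        FiniteDimensional (radField K m) N → Normal (radField K m) N → ∀ α ∈ N,
        IsIntegral ℤ α → α ≠ 0 → (∀ r : ℕ, 0 < r → α ^ r ≠ 1) →
        ∀ b D : ℕ, b = Nat.card (Abelianization (N ≃ₐ[radField K m] N)) →
          D = (minpoly (adjoin ℚ (divSet Γ)) α).natDegree →
          1 / ((A : ℝ) * b * D * (1 + Real.log (b * D)) ^ A) ≤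
            NumberField.absLogHeight₁ α := by
  obtain ⟨A, hA, h⟩ := lower K hm
  refine ⟨A, hA, ?_⟩
  rintro Γ hΓ N hN1 hN2 α hα hint h0 hr b D rfl rfl
  have h1 := h (radField K m) le_rfl α hint h0 hr
  have h2 := degree_le (radField K m) (fun ζ r hr hζ => root_mem_radField K m hr hζ) Γ hΓ N hα
  set b := Nat.card (Abelianization (N ≃ₐ[radField K m] N)) with hb
  set D := (minpoly (adjoin ℚ (divSet Γ)) α).natDegree with hD
  set D' : ℕ := (minpoly (radField K m) α).natDegree with hD'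
  have hD'0 : 0 < D' := minpoly.natDegree_pos hint.tower_top
  have hA0 : (0 : ℝ) < A := by exact_mod_cast hA
  have h3 : (1 : ℝ) ≤ D' := by exact_mod_cast hD'0
  have h4 : (D' : ℝ) ≤ b * D := by exact_mod_cast h2
  have hl : 0 ≤ Real.log D' := Real.log_nonneg h3
  have hl2 : Real.log D' ≤ Real.log (b * D) := Real.log_le_log (by linarith) h4
  have hh0 : 0 ≤ NumberField.absLogHeight₁ α := by
    by_contra hcon
    push Not at hcon
    have : (A : ℝ) * D' * (1 + Real.log D') ^ A * NumberField.absLogHeight₁ α ≤ 0 :=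
      mul_nonpos_of_nonneg_of_nonpos (by positivity) hcon.le
    linarith
  have h5 : 0 < (b : ℝ) * D := by linarith
  have hl3 : 0 ≤ Real.log ((b : ℝ) * D) := hl.trans hl2
  rw [mul_assoc (A : ℝ), div_le_iff₀ (by positivity)]
  calc (1 : ℝ) ≤ (A : ℝ) * D' * (1 + Real.log D') ^ A * NumberField.absLogHeight₁ α := h1
    _ ≤ (A : ℝ) * (b * D) * (1 + Real.log (b * D)) ^ A * NumberField.absLogHeight₁ α := by gcongr
    _ = NumberField.absLogHeight₁ α * (A * (b * D) * (1 + Real.log (b * D)) ^ A) := by ring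

end Pool.Agent.U218.PP
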